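import Mathlib

set_option autoImplicit false

/-!
# MP_c9dba7_co: `S_6` is generated unicursally by `(5 6)` and `(1 2 3 4 5)`

The Cayley digraph of the symmetric group of degree six with respect to the transposition
`A = (5 6)` and the 5-cycle `B = (1 2 3 4 5)` has a directed Hamiltonian cycle. The elements are
coded by numbers (digits to the base eight); the list `cs` contains the codes of the elements in the
order of the cycle.
-/

namespace Pool.Agent.Results.MP_c9dba7_co.DegreeSix

/-- The partial product `t 0 * t 1 * ... * t (k - 1)`. -/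
def partialProd {G : Type} [Group G] (t : ℕ → G) (k : ℕ) : G := ((List.range k).map t).prod

/-- The finite group `G` is generated unicursally by `T`: there is a sequence in `T` whose first
`|G|` partial products are pairwise distinct, the last one being the identity. -/
def Unicursal (G : Type) [Group G] (T : Set G) : Prop :=
  ∃ t : ℕ → G, (∀ k, t k ∈ T) ∧
    (∀ i j, 1 ≤ i → i ≤ Nat.card G → 1 ≤ j → j ≤ Nat.card G →
      partialProd t i = partialProd t j → i = j) ∧
    partialProd t (Nat.card G) = 1

/-- The transposition of the last two of the six symbols `0, ..., 5`. -/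
def A : Equiv.Perm (Fin 6) := Equiv.swap 4 5

/-- The cycle `0 → 1 → 2 → 3 → 4 → 0` of the first five symbols. -/
def B : Equiv.Perm (Fin 6) := List.formPerm [0, 1, 2, 3, 4]

/-- code of a permutation -/
def code (g : Equiv.Perm (Fin 6)) : ℕ :=
  (g 0).val + 8 * (g 1).val + 64 * (g 2).val + 512 * (g 3).val + 4096 * (g 4).val +
    32768 * (g 5).val

def stepA (c : ℕ) : ℕ := c % 4096 + 4096 * (c / 32768) + 32768 * (c / 4096 % 8)

def stepB (c : ℕ) : ℕ := c / 8 % 4096 + 4096 * (c % 8) + 32768 * (c / 32768)

theorem code_A (g : Equiv.Perm (Fin 6)) : code (g * A) = stepA (code g) := by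
  have h0 := (g 0).isLt
  have h1 := (g 1).isLt
  have h2 := (g 2).isLt
  have h3 := (g 3).isLt
  have h4 := (g 4).isLt
  have h5 := (g 5).isLt
  have e0 : A 0 = 0 := by decide
  have e1 : A 1 = 1 := by decide
  have e2 : A 2 = 2 := by decide
  have e3 : A 3 = 3 := by decide
  have e4 : A 4 = 5 := by decide
  have e5 : A 5 = 4 := by decide
  unfold code stepA
  simp only [Equiv.Perm.mul_apply, e0, e1, e2, e3, e4, e5]
  omega

theorem code_B (g : Equiv.Perm (Fin 6)) : code (g * B) = stepB (code g) := by
  have h0 := (g 0).isLt
  have h1 := (g 1).isLt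
  have h2 := (g 2).isLt
  have h3 := (g 3).isLt
  have h4 := (g 4).isLt
  have h5 := (g 5).isLt
  have e0 : B 0 = 1 := by decide
  have e1 : B 1 = 2 := by decide
  have e2 : B 2 = 3 := by decide
  have e3 : B 3 = 4 := by decide
  have e4 : B 4 = 0 := by decide
  have e5 : B 5 = 5 := by decide
  unfold code stepB
  simp only [Equiv.Perm.mul_apply, e0, e1, e2, e3, e4, e5]
  omega

theorem code_inj {g h : Equiv.Perm (Fin 6)} (e : code g = code h) : g = h := by
  have h0 := (g 0).isLt
  have h1 := (g 1).isLt
  have h2 := (g 2).isLt
  have h3 := (g 3).isLt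
  have h4 := (g 4).isLt
  have h5 := (g 5).isLt
  have k0 := (h 0).isLt
  have k1 := (h 1).isLt
  have k2 := (h 2).isLt
  have k3 := (h 3).isLt
  have k4 := (h 4).isLt
  have k5 := (h 5).isLt
  unfold code at e
  ext i
  fin_cases i <;> simp <;> omega

/-- the codes of the elements in the order of the Hamiltonian cycle -/
def cs : List ℕ :=
  [181896, 153224, 133841, 135514, 49498, 43051, 46341, 54944, 35540, 6868, 17242, 131930, 139371,
  144397, 153217, 137936, 51920, 35162, 41259, 46117, 54916, 169604, 180944, 165978, 22618,
  11019, 13665, 99681, 102572, 45228, 50709, 55490, 43800, 34147, 5475, 12972, 98988, 114773,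
  143445, 153098, 181770, 174273, 169240, 54552, 35491, 45396, 50730, 43205, 71877, 86808, 68195,
  10851, 13644, 18089, 6357, 21274, 164634, 172131, 177164, 181889, 170192, 55504, 35610, 6938,
  9059, 13420, 18061, 22737, 166097, 168218, 172579, 86563, 80452, 83784, 67817, 69917, 41245,
  54307, 168995, 176772, 181840, 166090, 172313, 86297, 72227, 78660, 107332, 115816, 100493,
  14477, 22289, 6882, 9052, 17515, 132203, 143501, 153105, 137922, 140120, 82776, 67691, 10347,
  13581, 22177, 165537, 168148, 180762, 152090, 141891, 84547, 80200, 67369, 10025, 5349, 34021,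
  53404, 168092, 180755, 178242, 173832, 165089, 21729, 6812, 17235, 14442, 9997, 67341, 86241,
  72220, 82755, 79976, 108648, 99597, 118945, 104980, 115522, 144194, 140904, 83560, 67789,
  10445, 21785, 6819, 13140, 18026, 132714, 139469, 152601, 137859, 144208, 115536, 100458,
  106765, 78093, 87585, 72388, 43716, 50520, 34987, 45333, 54818, 169506, 172740, 181336, 166027,
  176401, 119057, 104994, 47650, 42820, 50408, 136424, 131741, 151635, 180307, 178186, 120842,
  109313, 103776, 46432, 34476, 5804, 17109, 131797, 151642, 141835, 144705, 136872, 50856,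
  35029, 53530, 43555, 46404, 103748, 115368, 100437, 119050, 109089, 80417, 71492, 82664, 67677,
  86283, 172299, 177185, 119841, 105092, 47748, 51024, 35050, 6378, 8989, 66333, 86115, 80396,
  109068, 116033, 104616, 99093, 118882, 176226, 173580, 181441, 152769, 137880, 131923, 143466,
  140813, 83469, 88257, 72472, 66403, 77932, 106604, 115725, 120961, 105232, 99170, 13154, 9836,
  17613, 132301, 151705, 137747, 51731, 47426, 42792, 71464, 66277, 8933, 21596, 164956, 180363,
  151691, 145937, 117265, 104770, 107304, 78632, 67173, 86220, 84505, 72003, 43331, 46376, 34469,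
  53460, 51738, 137754, 140099, 144488, 132749, 151761, 180433, 170010, 172803, 177248, 165516,
  22156, 19153, 6490, 9003, 13413, 99429, 118924, 176268, 181777, 170178, 172824, 164963, 21603,
  14988, 18257, 132945, 135402, 139805, 82461, 88131, 174147, 177416, 120072, 101025, 102740,
  115242, 108613, 79941, 87816, 68321, 69980, 82475, 139819, 144453, 115781, 120968, 178312,
  165649, 168162, 53474, 43548, 50499, 47272, 34581, 5909, 21218, 10844, 17739, 14505, 100521,
  102677, 119330, 109124, 116040, 144712, 132777, 135381, 49365, 55322, 43779, 72451, 78688,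
  67180, 82125, 88089, 174105, 169219, 176800, 165460, 180426, 151754, 141849, 136515, 144040,
  132693, 18005, 22730, 11033, 68377, 69987, 41315, 46124, 50821, 136837, 152272, 133722, 139595,
  144425, 115753, 104581, 47237, 55056, 35554, 41308, 50219, 136235, 144005, 153168, 133834,
  139609, 82265, 71723, 78597, 87648, 68300, 10956, 17753, 6315, 13077, 22114, 165474, 172236,
  181273, 170115, 176912, 119568, 100962, 106828, 78156, 83497, 140841, 136389, 50373, 55448,
  170136, 164627, 21267, 14946, 10060, 67404, 82153, 71709, 86787, 80480, 109152, 99660, 114857,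
  104469, 119554, 176898, 173664, 165068, 180377, 170003, 55315, 47874, 105218, 107360, 99436,
  114829, 120849, 178193, 169730, 172768, 86752, 68188, 82251, 79913, 71429, 42757, 54496, 35484,
  49491, 47146, 104490, 107269, 119904, 101004, 115025, 143697, 136746, 139973, 152664, 133771,
  19083, 14673, 5930, 34602, 41189, 69861, 86556, 172572, 181315, 152643, 146056, 117384, 100689,
  102698, 45354, 42533, 54468, 51864, 35155, 6483, 13098, 9829, 21708, 19097, 133785, 135507,
  143914, 140869, 152776, 181448, 166041, 22681, 6931, 35603, 45410, 42540, 71212, 82629, 88152,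
  68363, 78177, 106849, 103468, 115333, 120912, 101130, 15114, 10081, 5356, 17053, 22611, 165971,
  176394, 173601, 169156, 180888, 152216, 133715, 143690, 115018, 108585, 103685, 119456, 100948,
  14932, 18250, 10473, 5405, 21155, 164515, 176212, 118868, 117258, 145930, 141121, 83777, 71912,
  43240, 34077, 53411, 47636, 51010, 137026, 140008, 132189, 17501, 22667, 15121, 101137, 102754,
  107052, 78380, 83525, 88264, 174280, 165145, 168099, 176660, 181826, 153154, 142024, 132441,
  135339, 143893, 115221, 120898, 109320, 80648, 67425, 69868, 41196, 50205, 55427, 47888, 34658,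
  5986, 8940, 66284, 82013, 139357, 152587, 181259, 178305, 169744, 164578, 172124, 86108, 84491,
  80193, 108865, 103720, 98981, 12965, 22100, 19146, 10585, 5419, 34091, 45221, 102565, 119316,
  117314, 108872, 99625, 13609, 5797, 21204, 19034, 10571, 67915, 78121, 71205, 86724, 84568,
  141912, 132427, 143529, 136725, 152258, 180930, 174168, 165131, 176289, 169492, 54804, 51906,
  43352, 72024, 66347, 77925, 87564, 84673, 142017, 136536, 131755, 17067, 14421, 22282, 10977,
  5468, 34140, 49323, 47125, 55042, 43744, 72416, 66396, 82027, 79885, 87809, 173825, 169184,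
  164508, 21148, 19027, 14666, 100682, 106793, 103461, 119428, 117328, 146000, 132938, 139497,
  136221, 152195, 180867, 178256, 165642, 172257, 168988, 54300, 51843, 47440, 104784, 99114,
  106597, 119820, 117377, 146049, 137040, 131818, 17130, 10333, 21771, 15009, 5972, 34644, 49386,
  43037, 54531, 47776, 105120, 99156, 114794, 108557, 120065, 177409, 169632, 164564, 180314,
  174091, 88075, 80641, 71520, 42848, 34028, 49309, 135325, 152083, 145986, 141128, 132329,
  17641, 6301, 34973, 53523, 168211, 176674, 173636, 87620, 84680, 67929, 69931, 78373, 107045,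
  119876, 177220, 181896]

theorem cs_len : cs.length = 721 := by decide +kernel

theorem cs_step : ∀ k < 720, cs.getD (k + 1) 0 = stepA (cs.getD k 0) ∨
    cs.getD (k + 1) 0 = stepB (cs.getD k 0) := by decide +kernel

theorem cs_nodup : cs.tail.Nodup := by decide +kernel

theorem cs_zero : cs.getD 0 0 = code 1 := by decide +kernel

theorem cs_last : cs.getD 720 0 = code 1 := by decide +kernel

/-- the generators along the cycle -/
def t (k : ℕ) : Equiv.Perm (Fin 6) :=
  if cs.getD (k + 1) 0 = stepA (cs.getD k 0) then A else B

theorem code_prod : ∀ k ≤ 720, code (partialProd t k) = cs.getD k 0 := by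
  intro k
  induction k with
  | zero =>
    intro _
    rw [cs_zero]
    simp [partialProd]
  | succ k ih =>
    intro hk
    have e1 : partialProd t (k + 1) = partialProd t k * t k := by
      simp [partialProd, List.range_succ]
    have e2 : t k = if cs.getD (k + 1) 0 = stepA (cs.getD k 0) then A else B := rfl
    rw [e1, e2]
    split_ifs with h
    · rw [code_A, ih (by omega), h]
    · rw [code_B, ih (by omega)]
      rcases cs_step k (by omega) with h2 | h2
      · exact absurd h2 h
      · exact h2.symm

/-- **`S_6` is generated unicursally by `(5 6)` and `(1 2 3 4 5)`.** -/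
theorem result : Unicursal (Equiv.Perm (Fin 6)) {A, B} := by
  have hcard : Nat.card (Equiv.Perm (Fin 6)) = 720 := by
    rw [Nat.card_eq_fintype_card, Fintype.card_perm, Fintype.card_fin]
    rfl
  refine ⟨t, fun k => ?_, ?_, ?_⟩
  · unfold t
    split_ifs
    · exact Or.inl rfl
    · exact Or.inr rfl
  · rw [hcard]
    intro i j hi hi2 hj hj2 h
    have h1 : cs.getD i 0 = cs.getD j 0 := by
      rw [← code_prod i hi2, ← code_prod j hj2, h]
    obtain ⟨i, rfl⟩ : ∃ i', i = i' + 1 := ⟨i - 1, by omega⟩
    obtain ⟨j, rfl⟩ : ∃ j', j = j' + 1 := ⟨j - 1, by omega⟩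
    have hlen : cs.tail.length = 720 := by rw [List.length_tail, cs_len]
    have key : ∀ m, ∀ hm : m < 720, cs.getD (m + 1) 0 = cs.tail[m]'(by omega) := by
      intro m hm
      have : m + 1 < cs.length := by rw [cs_len]; omega
      rw [List.getD_eq_getElem _ _ this, List.getElem_tail]
    rw [key i (by omega), key j (by omega)] at h1
    have hi' : i < cs.tail.length := by omega
    have hj' : j < cs.tail.length := by omega
    have h2 : i = j := (cs_nodup.getElem_inj_iff (hi := hi') (hj := hj')).1 h1
    omega
  · rw [hcard]
    exact code_inj (by rw [code_prod 720 le_rfl, cs_last])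

end Pool.Agent.Results.MP_c9dba7_co.DegreeSix
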